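import Pool.Agent.SHC.Smooth

/-!
# Supersingular chain hypersurfaces

The form `∑_{i < n} X_i ^ (d - 1) * X_{i + 1} + X_n ^ d` is smooth and supersingular over `𝔽_p` if
`-1` is a power of `p` modulo `(d - 1) ^ n`, for even `d` already if `-1` is a power of `p` modulo
`d - 1`.  The prime `p` may divide `d`.
-/

set_option autoImplicit false

namespace Pool.Agent.Results.MP_295930_ag.ChainHypersurfaces

open MvPolynomial Finset SHC
open scoped LinearAlgebra.Projectivization

/-- The `L`-rational points of the hypersurface `F = 0` in `ℙ^n`, for a field `L` containing `K`. -/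
def Points {K : Type} [Field K] {n : ℕ} (F : MvPolynomial (Fin (n + 1)) K) (L : Type) [Field L]
    [Algebra K L] : Set (ℙ L (Fin (n + 1) → L)) :=
  {P | aeval P.rep F = 0}

/-- Smoothness: over the algebraic closure, `F` and its partial derivatives have no common zero
except the origin. -/
def IsSmooth {K : Type} [Field K] {n : ℕ} (F : MvPolynomial (Fin (n + 1)) K) : Prop :=
  ∀ x : Fin (n + 1) → AlgebraicClosure K, aeval x F = 0 → (∀ j, aeval x (pderiv j F) = 0) → x = 0

/-- Supersingularity in terms of the numbers of points: over some field with `s ^ 2` elements, `s` a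
power of `p`, all the Frobenius eigenvalues on the primitive middle cohomology are equal to
`s ^ (n - 1)`, i.e. the number of points over the extension `L` with `(s ^ 2) ^ m` elements is
`∑ i < n, |L| ^ i + b * (s ^ m) ^ (n - 1)`, with a constant `b`. -/
def IsSupersingular {p n : ℕ} [Fact p.Prime] (F : MvPolynomial (Fin (n + 1)) (ZMod p)) : Prop :=
  ∃ s : ℕ, (∃ a : ℕ, 1 ≤ a ∧ s = p ^ a) ∧ ∃ b : ℤ, ∀ m : ℕ, 1 ≤ m →
    ∀ (L : Type) [Field L] [Finite L] [Algebra (ZMod p) L], Nat.card L = (s ^ 2) ^ m →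
      ((Points F L).ncard : ℤ) = ∑ i ∈ range n, (Nat.card L : ℤ) ^ i + b * ((s : ℤ) ^ m) ^ (n - 1)

theorem supersingular_chain {p n e a : ℕ} [Fact p.Prime] (hn : 1 ≤ n) (ha : 1 ≤ a)
    (he : e ^ n ∣ p ^ a + 1) : IsSupersingular (chainPoly (ZMod p) e n) := by
  refine ⟨p ^ (2 * a), ⟨2 * a, by omega, rfl⟩, 1 - ∑ j ∈ range (n + 1), (-(e : ℤ)) ^ j, ?_⟩
  intro m hm L _ _ _ hL
  classical
  have : Fintype L := Fintype.ofFinite L
  have : CharP L p := charP_of_injective_algebraMap (algebraMap (ZMod p) L).injective p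
  have hL' : Fintype.card L = (p ^ (2 * a)) ^ (2 * m) := by
    rw [← Nat.card_eq_fintype_card, hL, ← pow_mul]
  obtain ⟨u, T, H⟩ := hyp_of ha hm hL' he
  obtain ⟨ψ, hψ⟩ := exists_adm L p
  have h := H.proj hψ hn
  have hset : (Points (chainPoly (ZMod p) e n) L).ncard =
      Nat.card {P : ℙ L (Fin (n + 1) → L) // FF e n P.rep = 0} := by
    rw [← Nat.card_coe_set_eq]
    refine Nat.card_congr (Equiv.subtypeEquivRight fun P => ?_)
    change aeval P.rep _ = 0 ↔ _
    rw [aeval_chainPoly]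
  rw [hset, h, hL]
  congr 1
  refine sum_congr rfl fun i _ => ?_
  push_cast
  simp only [← pow_mul]
  congr 1
  ring

theorem smooth_chain {p n e : ℕ} [Fact p.Prime] (he : 2 ≤ e) (hpe : ¬ p ∣ e) :
    IsSmooth (chainPoly (ZMod p) e n) := by
  intro x h0 h1
  have : CharP (AlgebraicClosure (ZMod p)) p :=
    charP_of_injective_algebraMap (algebraMap (ZMod p) (AlgebraicClosure (ZMod p))).injective p
  refine chain_smooth he ?_ x ?_ ?_
  · rw [Ne, CharP.cast_eq_zero_iff (AlgebraicClosure (ZMod p)) p]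
    exact hpe
  · rw [← aeval_chainPoly (K := ZMod p)]
    exact h0
  · intro j
    rw [← aeval_pderiv (K := ZMod p)]
    exact h1 j

/-- lifting the exponent: for odd `e` with `e ∣ x + 1` one has `e ^ (k + 1) ∣ x ^ (e ^ k) + 1` -/
theorem lift_dvd {e x : ℕ} (he : Odd e) (h : e ∣ x + 1) (k : ℕ) :
    e ^ (k + 1) ∣ x ^ (e ^ k) + 1 := by
  have h1 : (e : ℤ) ∣ (x : ℤ) - (-1) := by
    have : ((e : ℕ) : ℤ) ∣ ((x + 1 : ℕ) : ℤ) := Int.natCast_dvd_natCast.2 h
    push_cast at this
    rwa [sub_neg_eq_add]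
  have h2 := dvd_sub_pow_of_dvd_sub h1 k
  rw [(he.pow).neg_one_pow, sub_neg_eq_add] at h2
  have h3 : ((e ^ (k + 1) : ℕ) : ℤ) ∣ ((x ^ (e ^ k) + 1 : ℕ) : ℤ) := by
    push_cast
    exact h2
  exact Int.natCast_dvd_natCast.1 h3

/-- For `n ≥ 2`, `d ≥ 3` and a prime `p` such that `-1` is a power of `p` modulo `(d - 1) ^ n`, or
`d` is even and `-1` is a power of `p` modulo `d - 1`, there is a smooth supersingular hypersurface
of degree `d` in `ℙ^n` over `𝔽_p`. -/
theorem result (n d p : ℕ) [Fact p.Prime] (hn : 2 ≤ n) (hd : 3 ≤ d)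
    (h : (∃ ν : ℕ, (d - 1) ^ n ∣ p ^ ν + 1) ∨ (Even d ∧ ∃ ν : ℕ, d - 1 ∣ p ^ ν + 1)) :
    ∃ F : MvPolynomial (Fin (n + 1)) (ZMod p), F ≠ 0 ∧ F.IsHomogeneous d ∧ IsSmooth F ∧
      IsSupersingular F := by
  obtain ⟨e, rfl⟩ : ∃ e, d = e + 1 := ⟨d - 1, by omega⟩
  rw [Nat.add_sub_cancel] at h
  have he2 : 2 ≤ e := by omega
  obtain ⟨a, ha⟩ : ∃ a : ℕ, e ^ n ∣ p ^ a + 1 := by
    rcases h with h | ⟨hev, ν, hν⟩
    · exact h
    · have hodd : Odd e := by
        rcases Nat.even_or_odd e with h1 | h1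
        · exact absurd hev (Nat.not_even_iff_odd.2 h1.add_one)
        · exact h1
      refine ⟨ν * e ^ (n - 1), ?_⟩
      have := lift_dvd hodd hν (n - 1)
      rwa [Nat.sub_add_cancel (by omega), ← pow_mul] at this
  have hen : 4 ≤ e ^ n := by
    calc 4 = 2 ^ 2 := by norm_num
      _ ≤ 2 ^ n := Nat.pow_le_pow_right (by norm_num) hn
      _ ≤ e ^ n := Nat.pow_le_pow_left he2 n
  have ha1 : 1 ≤ a := by
    rcases Nat.eq_zero_or_pos a with h0 | h0
    · rw [h0, pow_zero] at ha
      have := Nat.le_of_dvd (by norm_num) ha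
      omega
    · exact h0
  have hpe : ¬ p ∣ e := by
    intro hdvd
    have h1 : p ∣ p ^ a + 1 := (hdvd.trans (dvd_pow_self e (by omega))).trans ha
    have h2 : p ∣ p ^ a := dvd_pow_self p (by omega)
    have h3 : p ∣ 1 := (Nat.dvd_add_right h2).1 h1
    exact (Fact.out : p.Prime).one_lt.ne' (Nat.dvd_one.1 h3)
  refine ⟨chainPoly (ZMod p) e n, ?_, chainPoly_homog _ _ _, smooth_chain he2 hpe,
    supersingular_chain (by omega) ha1 ha⟩
  -- the form is not zero: its value at `(0, ..., 0, 1)` is `1`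
  intro h0
  have h1 : aeval (Pi.single (Fin.last n) 1 : Fin (n + 1) → ZMod p) (chainPoly (ZMod p) e n) =
      (0 : ZMod p) := by
    rw [h0, map_zero]
  rw [aeval_chainPoly] at h1
  unfold FF at h1
  rw [Pi.single_eq_same, one_pow, sum_eq_zero, zero_add] at h1
  · exact one_ne_zero h1
  · intro i _
    rw [Pi.single_eq_of_ne (Fin.castSucc_lt_last i).ne, zero_pow (by omega), zero_mul]

end Pool.Agent.Results.MP_295930_ag.ChainHypersurfaces
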