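import Pool.Agent.SCF.Fin
import Pool.Agent.SCF.Fer
import Pool.Agent.SCH.Fin
import Pool.Agent.SC3.Sum

/-!
# Supersingular cubic fourfolds in every characteristic

For `p = 3` we take `X (s t - u²) + y (s² + t²) + z u s + (X - z)³ - (X - z) y² + y z²` over the field
with three elements: the fourfold contains the plane `X = y = z = 0`, and the associated K3 surface,
the double plane branched along the two cubic curves `X³ - X y² = y z²` and
`(X - z)³ - (X - z) y² = - y z²`, has an isotrivial supersingular elliptic fibration.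

For `p ≡ 2 mod 3` the Fermat cubic is supersingular (known).  For `p ≡ 1 mod 3` we take
`f(v₀, v₁, v₂) + f(v₃, v₄, v₅)` with `f(m, y, z) = y² z - m³ - z (3 m + θ z)²`, the plane cubic
`f = 0` a supersingular elliptic curve.  Over a field with `Q` elements which contains `K` the number
of points is `1 + Q + Q² + Q³ + Q⁴ + a² Q + 18 Q²`, with `a` the trace of Frobenius.
-/

set_option autoImplicit false

namespace Pool.Agent.Results.MP_295930_ag.CubicFourfolds

open MvPolynomial Finset
open scoped LinearAlgebra.Projectivization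

/-- The `L`-rational points of the hypersurface `F = 0` in `ℙ^n`, for a field `L` containing `K`. -/
def Points {K : Type} [Field K] {n : ℕ} (F : MvPolynomial (Fin (n + 1)) K) (L : Type) [Field L]
    [Algebra K L] : Set (ℙ L (Fin (n + 1) → L)) :=
  {P | aeval P.rep F = 0}

/-- Smoothness: over the algebraic closure, `F` and its partial derivatives have no common zero
except the origin. -/
def IsSmooth {K : Type} [Field K] {n : ℕ} (F : MvPolynomial (Fin (n + 1)) K) : Prop :=
  ∀ x : Fin (n + 1) → AlgebraicClosure K, aeval x F = 0 → (∀ j, aeval x (pderiv j F) = 0) → x = 0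

/-- Supersingularity, for `F` over a finite field `K`, in terms of the numbers of points: for some
`s` with `s ^ 2` a power of `|K|`, all the Frobenius eigenvalues on the primitive middle cohomology
over the field with `s ^ 2` elements are equal to `s ^ (n - 1)`, i.e. the number of points over the
extension `L` with `(s ^ 2) ^ m` elements is `∑ i < n, |L| ^ i + b * (s ^ m) ^ (n - 1)`, with a
constant `b`. -/
def IsSupersingular {K : Type} [Field K] {n : ℕ} (F : MvPolynomial (Fin (n + 1)) K) : Prop :=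
  ∃ s : ℕ, (∃ k : ℕ, 1 ≤ k ∧ s ^ 2 = Nat.card K ^ k) ∧ ∃ b : ℤ, ∀ m : ℕ, 1 ≤ m →
    ∀ (L : Type) [Field L] [Finite L] [Algebra K L], Nat.card L = (s ^ 2) ^ m →
      ((Points F L).ncard : ℤ) = ∑ i ∈ range n, (Nat.card L : ℤ) ^ i + b * ((s : ℤ) ^ m) ^ (n - 1)

/-- the Fermat cubic fourfold for `p ≡ 2 mod 3` -/
theorem supersingular_fer {p : ℕ} [Fact p.Prime] (hp : 3 ∣ p + 1) :
    IsSupersingular (SCF.fer (ZMod p)) := by
  refine ⟨p ^ 2, ⟨4, by norm_num, ?_⟩, 22, ?_⟩
  · rw [Nat.card_zmod]
    ring
  intro m hm L _ _ _ hL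
  classical
  have : Fintype L := Fintype.ofFinite L
  have : CharP L p := charP_of_injective_algebraMap (algebraMap (ZMod p) L).injective p
  have hL' : Fintype.card L = p ^ (4 * m) := by
    rw [← Nat.card_eq_fintype_card, hL]
    ring
  have hc := SCF.card_fermat (L := L) hp hm hL'
  have hN : (Nat.card {v : Fin 6 → L // ∑ i, v i ^ 3 = 0} : ℤ) =
      ((Fintype.card L : ℕ) : ℤ) ^ 5 + 22 * ((Fintype.card L : ℕ) - 1) *
        (((p ^ 2) ^ m : ℕ) : ℤ) ^ 4 := by
    rw [hc]
    push_cast
    ring
  have hF : ∀ (t : L) (v : Fin 6 → L), ∑ i, (t • v) i ^ 3 = t ^ (2 + 1) * ∑ i, v i ^ 3 := by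
    intro t v
    rw [mul_sum]
    refine sum_congr rfl fun i _ => ?_
    rw [Pi.smul_apply, smul_eq_mul]
    ring
  have hfin := SCF.points_of_count (L := L) rfl (s := (p ^ 2) ^ m) (k := 2) hF hN
  have hset : (Points (SCF.fer (ZMod p)) L).ncard =
      Nat.card {P : ℙ L (Fin 6 → L) // ∑ i, P.rep i ^ 3 = 0} := by
    rw [← Nat.card_coe_set_eq]
    refine Nat.card_congr (Equiv.subtypeEquivRight fun P => ?_)
    change aeval P.rep _ = 0 ↔ _
    rw [SCF.fer, map_sum]
    simp only [map_pow, aeval_X]
  rw [hset, hfin, Nat.card_eq_fintype_card]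
  push_cast
  ring

/-- For every prime `p` there is a smooth supersingular cubic fourfold over some finite field
of characteristic `p`. -/
theorem result (p : ℕ) [Fact p.Prime] :
    ∃ (K : Type) (_ : Field K) (_ : Finite K) (_ : CharP K p)
      (F : MvPolynomial (Fin (5 + 1)) K),
      F ≠ 0 ∧ F.IsHomogeneous 3 ∧ IsSmooth F ∧ IsSupersingular F := by
  classical
  have hpp : p.Prime := Fact.out
  rcases eq_or_ne p 3 with rfl | hp
  · have h3 : (3 : ZMod 3) = 0 := by
      have := CharP.cast_eq_zero (ZMod 3) 3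
      exact_mod_cast this
    refine ⟨ZMod 3, inferInstance, inferInstance, inferInstance, SCH.PP, SCH.PP_ne_zero,
      SCH.homog_PP, ?_, SCH.supersingular_PP fun L _ _ _ _ m hm hL => SC3.sum_main hm hL⟩
    intro x h0 hx
    exact SCH.smooth_PP h3 x h0 hx
  have h3 : p % 3 ≠ 0 := by
    intro h
    exact hp ((Nat.prime_dvd_prime_iff_eq Nat.prime_three hpp).1 (Nat.dvd_of_mod_eq_zero h)).symm
  rcases (by omega : p % 3 = 1 ∨ p % 3 = 2) with h1 | h2
  · have hp2 : p ≠ 2 := by rintro rfl; omega
    obtain ⟨K, _, _, _, T, d, hT1, hT2, hd, cB⟩ := SCF.exists_param h1 hp2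
    obtain ⟨h2, h3⟩ := SCT.ne_of_char (F := K) h1 hp2
    have hθ : 2 + T ≠ 0 := fun h0 => hT2 (eq_neg_of_add_eq_zero_right h0)
    have hθ4 : 2 + T ≠ 4 := by
      intro h0
      apply hT1
      linear_combination h0
    refine ⟨K, inferInstance, inferInstance, inferInstance, SCF.PP (2 + T), SCF.PP_ne_zero,
      SCF.homog_PP _, ?_, SCF.supersingular_PP h1 hp2 hT1 hT2 hd cB⟩
    intro x _ hx
    exact SCF.smooth_PP h2 h3 hθ hθ4 x hx
  · have h3p : 3 ∣ p + 1 := by omega
    refine ⟨ZMod p, inferInstance, inferInstance, inferInstance, SCF.fer (ZMod p),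
      SCF.fer_ne_zero _, SCF.homog_fer _, ?_, supersingular_fer h3p⟩
    intro x _ hx
    refine SCF.smooth_fer ?_ x hx
    intro h
    have h4 : ((3 : ℕ) : ZMod p) = 0 := by exact_mod_cast h
    rw [ZMod.natCast_eq_zero_iff] at h4
    exact hp ((Nat.prime_dvd_prime_iff_eq hpp Nat.prime_three).1 h4)

end Pool.Agent.Results.MP_295930_ag.CubicFourfolds
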