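import Pool.Agent.SCT.Fin
import Pool.Agent.SCT.Fermat

/-!
# Supersingular cubic threefolds in every characteristic `p ≠ 3`

For `p ≡ 2 mod 3` the Fermat cubic is supersingular (known).  For `p ≡ 1 mod 3` we take
`G - κ (x³ - z³) + a² (x - z) + b² (x - ω z) + e² (x - ω² z) + c a b e`, `G = x³ - μ z³`, `κ c² = 4`:
the number of points over a field with `Q` elements is `Q³ + Q² + Q + 1 - Q (3 t₁ + t₂ + t₃)` with
the traces of three elliptic curves, the first one depending on `μ`, the other two on a second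
parameter, and both parameters can be chosen such that all three curves are supersingular.
-/

set_option autoImplicit false

namespace Pool.Agent.Results.MP_295930_ag.CubicThreefolds

open MvPolynomial Finset
open scoped LinearAlgebra.Projectivization

/-- The `L`-rational points of the hypersurface `F = 0` in `ℙ^n`, for a field `L` containing `K`. -/
def Points {K : Type} [Field K] {n : ℕ} (F : MvPolynomial (Fin (n + 1)) K) (L : Type) [Field L]
    [Algebra K L] : Set (ℙ L (Fin (n + 1) → L)) :=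
  {P | aeval P.rep F = 0}

/-- Smoothness: over the algebraic closure, `F` and its partial derivatives have no common zero
except the origin. -/
def IsSmooth {K : Type} [Field K] {n : ℕ} (F : MvPolynomial (Fin (n + 1)) K) : Prop :=
  ∀ x : Fin (n + 1) → AlgebraicClosure K, aeval x F = 0 → (∀ j, aeval x (pderiv j F) = 0) → x = 0

/-- Supersingularity, for `F` over a finite field `K`, in terms of the numbers of points: for some
`s` with `s ^ 2` a power of `|K|`, all the Frobenius eigenvalues on the primitive middle cohomology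
over the field with `s ^ 2` elements are equal to `s ^ (n - 1)`, i.e. the number of points over the
extension `L` with `(s ^ 2) ^ m` elements is `∑ i < n, |L| ^ i + b * (s ^ m) ^ (n - 1)`, with a
constant `b`. -/
def IsSupersingular {K : Type} [Field K] {n : ℕ} (F : MvPolynomial (Fin (n + 1)) K) : Prop :=
  ∃ s : ℕ, (∃ k : ℕ, 1 ≤ k ∧ s ^ 2 = Nat.card K ^ k) ∧ ∃ b : ℤ, ∀ m : ℕ, 1 ≤ m →
    ∀ (L : Type) [Field L] [Finite L] [Algebra K L], Nat.card L = (s ^ 2) ^ m →
      ((Points F L).ncard : ℤ) = ∑ i ∈ range n, (Nat.card L : ℤ) ^ i + b * ((s : ℤ) ^ m) ^ (n - 1)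

/-- the Fermat cubic threefold for `p ≡ 2 mod 3` -/
theorem supersingular_fer {p : ℕ} [Fact p.Prime] (hp : 3 ∣ p + 1) :
    IsSupersingular (SCT.fer (ZMod p)) := by
  refine ⟨p ^ 2, ⟨4, by norm_num, ?_⟩, -10, ?_⟩
  · rw [Nat.card_zmod]
    ring
  intro m hm L _ _ _ hL
  classical
  have : Fintype L := Fintype.ofFinite L
  have : CharP L p := charP_of_injective_algebraMap (algebraMap (ZMod p) L).injective p
  have hL' : Fintype.card L = p ^ (4 * m) := by
    rw [← Nat.card_eq_fintype_card, hL]
    ring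
  have hc := SCT.card_fermat (L := L) hp hm hL'
  have hN : (Nat.card {v : Fin 5 → L // ∑ i, v i ^ 3 = 0} : ℤ) =
      ((Fintype.card L : ℕ) : ℤ) ^ 4 - 10 * ((Fintype.card L : ℕ) - 1) *
        (((p ^ 2) ^ m : ℕ) : ℤ) ^ 3 := by
    rw [hc]
    push_cast
    ring
  have hF : ∀ (t : L) (v : Fin 5 → L), ∑ i, (t • v) i ^ 3 = t ^ (2 + 1) * ∑ i, v i ^ 3 := by
    intro t v
    rw [mul_sum]
    refine sum_congr rfl fun i _ => ?_
    rw [Pi.smul_apply, smul_eq_mul]
    ring
  have hfin := SCT.points_of_count (L := L) rfl (s := (p ^ 2) ^ m) (by rw [hL']; ring) (k := 2) hF hN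
  have hset : (Points (SCT.fer (ZMod p)) L).ncard =
      Nat.card {P : ℙ L (Fin 5 → L) // ∑ i, P.rep i ^ 3 = 0} := by
    rw [← Nat.card_coe_set_eq]
    refine Nat.card_congr (Equiv.subtypeEquivRight fun P => ?_)
    change aeval P.rep _ = 0 ↔ _
    rw [SCT.fer, map_sum]
    simp only [map_pow, aeval_X]
  rw [hset, hfin, Nat.card_eq_fintype_card]
  push_cast
  ring

/-- For every prime `p ≠ 3` there is a smooth supersingular cubic threefold over some finite field
of characteristic `p`. -/
theorem result (p : ℕ) [Fact p.Prime] (hp : p ≠ 3) :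
    ∃ (K : Type) (_ : Field K) (_ : Finite K) (_ : CharP K p)
      (F : MvPolynomial (Fin (4 + 1)) K),
      F ≠ 0 ∧ F.IsHomogeneous 3 ∧ IsSmooth F ∧ IsSupersingular F := by
  classical
  have hpp : p.Prime := Fact.out
  have h3 : p % 3 ≠ 0 := by
    intro h
    exact hp ((Nat.prime_dvd_prime_iff_eq Nat.prime_three hpp).1 (Nat.dvd_of_mod_eq_zero h)).symm
  rcases (by omega : p % 3 = 1 ∨ p % 3 = 2) with h1 | h2
  · have hp2 : p ≠ 2 := by rintro rfl; omega
    obtain ⟨K, _, _, _, μ, κ, ω, c, δ, r, T, s, h⟩ := SCT.exists_finite_good h1 hp2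
    obtain ⟨h2, h3⟩ := SCT.ne_of_char (F := K) h1 hp2
    refine ⟨K, inferInstance, inferInstance, inferInstance, SCT.PP μ κ ω c, SCT.PP_ne_zero,
      SCT.homog_PP μ κ ω c, ?_, SCT.supersingular_PP h1 hp2 h⟩
    intro x hx0 hx
    exact SCT.smooth_PP h2 h3 h.hω h.hc h.hμ0 h.hμ1 h.hκ1 h.hμκ x hx0 hx
  · have h3p : 3 ∣ p + 1 := by omega
    refine ⟨ZMod p, inferInstance, inferInstance, inferInstance, SCT.fer (ZMod p),
      SCT.fer_ne_zero _, SCT.homog_fer _, ?_, supersingular_fer h3p⟩
    intro x _ hx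
    refine SCT.smooth_fer ?_ x hx
    intro h
    have h4 : ((3 : ℕ) : ZMod p) = 0 := by exact_mod_cast h
    rw [ZMod.natCast_eq_zero_iff] at h4
    exact hp ((Nat.prime_dvd_prime_iff_eq hpp Nat.prime_three).1 h4)

end Pool.Agent.Results.MP_295930_ag.CubicThreefolds
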