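import Pool.Agent.SHC.LoopCount

/-!
# Supersingular loop hypersurfaces

The form `∑_{i mod n + 1} X_i ^ (d - 1) * X_{i + 1}` is smooth and supersingular over `𝔽_p` if `p`
and `1 - d` generate a group containing `-1` modulo `D = ∑_{j ≤ n} (1 - d) ^ j`, up to sign
`((d - 1) ^ (n + 1) - (-1) ^ (n + 1)) / d`.  The prime `p` may divide `d` or `d - 1`.
-/

set_option autoImplicit false

namespace Pool.Agent.Results.MP_295930_ag.LoopHypersurfaces

open MvPolynomial Finset SHC
open scoped LinearAlgebra.Projectivization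

/-- The `L`-rational points of the hypersurface `F = 0` in `ℙ^n`, for a field `L` containing `K`. -/
def Points {K : Type} [Field K] {n : ℕ} (F : MvPolynomial (Fin (n + 1)) K) (L : Type) [Field L]
    [Algebra K L] : Set (ℙ L (Fin (n + 1) → L)) :=
  {P | aeval P.rep F = 0}

/-- Smoothness: over the algebraic closure, `F` and its partial derivatives have no common zero
except the origin. -/
def IsSmooth {K : Type} [Field K] {n : ℕ} (F : MvPolynomial (Fin (n + 1)) K) : Prop :=
  ∀ x : Fin (n + 1) → AlgebraicClosure K, aeval x F = 0 → (∀ j, aeval x (pderiv j F) = 0) → x = 0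

/-- Supersingularity in terms of the numbers of points: over some field with `s ^ 2` elements, `s` a
power of `p`, all the Frobenius eigenvalues on the primitive middle cohomology are equal to
`s ^ (n - 1)`, i.e. the number of points over the extension `L` with `(s ^ 2) ^ m` elements is
`∑ i < n, |L| ^ i + b * (s ^ m) ^ (n - 1)`, with a constant `b`. -/
def IsSupersingular {p n : ℕ} [Fact p.Prime] (F : MvPolynomial (Fin (n + 1)) (ZMod p)) : Prop :=
  ∃ s : ℕ, (∃ a : ℕ, 1 ≤ a ∧ s = p ^ a) ∧ ∃ b : ℤ, ∀ m : ℕ, 1 ≤ m →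
    ∀ (L : Type) [Field L] [Finite L] [Algebra (ZMod p) L], Nat.card L = (s ^ 2) ^ m →
      ((Points F L).ncard : ℤ) = ∑ i ∈ range n, (Nat.card L : ℤ) ^ i + b * ((s : ℤ) ^ m) ^ (n - 1)

theorem supersingular_loop {p n e D ν i : ℕ} [Fact p.Prime] (hn : 1 ≤ n)
    (he0 : 1 ≤ e) (he : IsCoprime (e : ℤ) (D : ℤ)) (hs : (sg e (n + 1)).natAbs = D)
    (hD0 : 0 < D) (hpD : ¬ p ∣ D) (hν : (D : ℤ) ∣ (p : ℤ) ^ ν * (-(e : ℤ)) ^ i + 1) :
    IsSupersingular (loopPoly (ZMod p) e n) := by
  obtain ⟨a, ha, hdat⟩ := exists_dat (p := p) hD0 hpD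
  refine ⟨p ^ a, ⟨a, ha, rfl⟩, 1 - sg e (n + 1), ?_⟩
  intro m hm L _ _ _ hL
  classical
  have : Fintype L := Fintype.ofFinite L
  have : CharP L p := charP_of_injective_algebraMap (algebraMap (ZMod p) L).injective p
  have hL' : Fintype.card L = ((p ^ a) ^ 2) ^ m := by
    rw [← Nat.card_eq_fintype_card, hL]
  obtain ⟨M, H⟩ := hdat L m hm hL'
  obtain ⟨ψ, hψ⟩ := exists_adm L p
  have h := H.proj_loop hψ hn he0 he hs hν
  have hset : (Points (loopPoly (ZMod p) e n) L).ncard =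
      Nat.card {P : ℙ L (Fin (n + 1) → L) // FL e n P.rep = 0} := by
    rw [← Nat.card_coe_set_eq]
    refine Nat.card_congr (Equiv.subtypeEquivRight fun P => ?_)
    change aeval P.rep _ = 0 ↔ _
    rw [aeval_loopPoly]
  rw [hset, h, hL]
  congr 1
  refine sum_congr rfl fun i _ => ?_
  push_cast
  simp only [← pow_mul]
  congr 1
  ring

/-- `e` is prime to `∑ j < k, (-e) ^ j`, for `k ≥ 1`. -/
theorem coprime_sg (e n : ℕ) : IsCoprime (e : ℤ) (sg e (n + 1)) := by
  refine ⟨sg e n, 1, ?_⟩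
  have h : sg e (n + 1) = 1 - e * sg e n := by
    unfold sg
    rw [sum_range_succ', pow_zero, mul_sum, sub_eq_add_neg, add_comm, ← sum_neg_distrib]
    congr 1
    refine sum_congr rfl fun j _ => ?_
    ring
  rw [h]
  ring

/-- For `n ≥ 2`, `d ≥ 3` and a prime `p` such that `-1` is congruent to a product
`p ^ ν * (1 - d) ^ i`, `ν ≥ 1`, modulo `∑_{j ≤ n} (1 - d) ^ j`, there is a smooth supersingular
hypersurface of degree `d` in `ℙ^n` over `𝔽_p`. -/
theorem result (n d p : ℕ) [Fact p.Prime] (hn : 2 ≤ n) (hd : 3 ≤ d)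
    (h : ∃ ν i : ℕ, 1 ≤ ν ∧
      (∑ j ∈ range (n + 1), (1 - (d : ℤ)) ^ j) ∣ (p : ℤ) ^ ν * (1 - (d : ℤ)) ^ i + 1) :
    ∃ F : MvPolynomial (Fin (n + 1)) (ZMod p), F ≠ 0 ∧ F.IsHomogeneous d ∧ IsSmooth F ∧
      IsSupersingular F := by
  obtain ⟨e, rfl⟩ : ∃ e, d = e + 1 := ⟨d - 1, by omega⟩
  have he2 : 2 ≤ e := by omega
  have hsum : ∑ j ∈ range (n + 1), (1 - ((e + 1 : ℕ) : ℤ)) ^ j = sg e (n + 1) := by
    unfold sg
    refine sum_congr rfl fun j _ => ?_
    push_cast
    ring
  have hd1 : 1 - ((e + 1 : ℕ) : ℤ) = -(e : ℤ) := by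
    push_cast
    ring
  rw [hsum] at h
  obtain ⟨ν, i, hν1, hν⟩ := h
  rw [hd1] at hν
  have hp := (Fact.out : p.Prime)
  obtain ⟨D, hD⟩ : ∃ D, (sg e (n + 1)).natAbs = D := ⟨_, rfl⟩
  have hDν : (D : ℤ) ∣ (p : ℤ) ^ ν * (-(e : ℤ)) ^ i + 1 := by
    rw [← hD]
    exact Int.natAbs_dvd.2 hν
  have hcop : IsCoprime (e : ℤ) (D : ℤ) := by
    have h1 := coprime_sg e n
    rw [← hD]
    rcases Int.natAbs_eq (sg e (n + 1)) with h2 | h2
    · rwa [← h2]
    · have h3 : (((sg e (n + 1)).natAbs : ℕ) : ℤ) = -sg e (n + 1) := by omega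
      rw [h3]
      exact h1.neg_right
  have hpD : ¬ p ∣ D := by
    intro hdvd
    have h1 : (p : ℤ) ∣ (p : ℤ) ^ ν * (-(e : ℤ)) ^ i + 1 :=
      (Int.natCast_dvd_natCast.2 hdvd).trans hDν
    have h2 : (p : ℤ) ∣ (p : ℤ) ^ ν * (-(e : ℤ)) ^ i :=
      (dvd_pow_self (p : ℤ) (by omega)).mul_right _
    have h3 : (p : ℤ) ∣ 1 := (Int.dvd_add_right h2).1 h1
    have h4 : p ∣ 1 := by exact_mod_cast h3
    exact hp.one_lt.ne' (Nat.dvd_one.1 h4)
  have hD0 : 0 < D := by
    rcases Nat.eq_zero_or_pos D with h0 | h0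
    · exact absurd (h0 ▸ dvd_zero p) hpD
    · exact h0
  refine ⟨loopPoly (ZMod p) e n, ?_, loopPoly_homog _ _ _, ?_,
    supersingular_loop (by omega) (by omega) hcop hD hD0 hpD hDν⟩
  · -- the form is not zero: the coefficient of `X_0 ^ e X_1`
    intro h0
    have h1 : aeval (Pi.single (Fin.last n) 1 + Pi.single 0 1 : Fin (n + 1) → ZMod p)
        (loopPoly (ZMod p) e n) = (0 : ZMod p) := by
      rw [h0, map_zero]
    rw [aeval_loopPoly, FL_eq, sum_eq_zero, zero_add] at h1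
    · have hne : (Fin.last n : Fin (n + 1)) ≠ 0 := by
        intro h2
        have := congrArg Fin.val h2
        simp at this
        omega
      simp [hne, hne.symm] at h1
    · intro i _
      have h3 : (i.succ : Fin (n + 1)) ≠ 0 := Fin.succ_ne_zero i
      have h4 : (i.castSucc : Fin (n + 1)) ≠ Fin.last n := (Fin.castSucc_lt_last i).ne
      by_cases h5 : i.succ = Fin.last n
      · have h6 : (i.castSucc : Fin (n + 1)) ≠ 0 := by
          intro h7
          have h8 := congrArg Fin.val h7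
          have h9 := congrArg Fin.val h5
          simp at h8 h9
          omega
        simp [h4, h6]
        omega
      · simp [h3, h5]
  · intro x h0 h1
    have : CharP (AlgebraicClosure (ZMod p)) p :=
      charP_of_injective_algebraMap (algebraMap (ZMod p) (AlgebraicClosure (ZMod p))).injective p
    refine loop_smooth he2 ?_ x ?_ ?_
    · rw [Ne, CharP.intCast_eq_zero_iff (AlgebraicClosure (ZMod p)) p]
      intro h2
      apply hpD
      rw [← hD]
      exact Int.natCast_dvd.1 h2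
    · rw [← aeval_loopPoly (K := ZMod p)]
      exact h0
    · intro j
      rw [← aeval_pderiv_loop (K := ZMod p)]
      exact h1 (j + 1)

end Pool.Agent.Results.MP_295930_ag.LoopHypersurfaces
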